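import Pool.Agent.K7.H13.ZC.Loc
import Pool.Agent.Y716.D.ZeroCycle
import Pool.Agent.R465.QV.MainQ

/-!
# Cubic hypersurfaces `F(x) = Q(w)` and zero-cycles of degree one
-/

set_option autoImplicit false

namespace Pool.Agent.K7.H13.ZC

open Filter Topology MvPolynomial

/-- smooth hypersurface -/
def Smooth {σ : Type} (G : MvPolynomial σ ℤ) : Prop :=
  ∀ (K : Type) [Field K] [CharZero K] (y : σ → K), y ≠ 0 → aeval y G = 0 →
    ∃ i, aeval y (pderiv i G) ≠ 0

/-- zero-cycle of degree one -/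
def HasZC {σ : Type} (G : MvPolynomial σ ℤ) (K : Type) [Field K] : Prop :=
  ∃ (t : ℕ) (L : Fin t → Type) (_ : ∀ i, Field (L i)) (_ : ∀ i, Algebra K (L i)) (m : Fin t → ℤ),
    (∀ i, FiniteDimensional K (L i)) ∧
    (∀ i, ∃ y : σ → L i, y ≠ 0 ∧ aeval y G = 0) ∧
    ∑ i, m i * (Module.finrank K (L i) : ℤ) = 1

/-- the form `F(x) - Q(w)` -/
noncomputable def diff {ι κ : Type} (F : MvPolynomial ι ℤ) (Q : MvPolynomial κ ℤ) :
    MvPolynomial (ι ⊕ κ) ℤ := rename Sum.inl F - rename Sum.inr Q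

section
variable {ι κ : Type} (F : MvPolynomial ι ℤ) (Q : MvPolynomial κ ℤ)

theorem diff_homog (hF : F.IsHomogeneous 3) (hQ : Q.IsHomogeneous 3) :
    (diff F Q).IsHomogeneous 3 :=
  hF.rename_isHomogeneous.sub hQ.rename_isHomogeneous

theorem aeval_diff {A : Type} [CommRing A] (y : ι ⊕ κ → A) :
    aeval y (diff F Q) = aeval (y ∘ Sum.inl) F - aeval (y ∘ Sum.inr) Q := by
  unfold diff
  rw [map_sub, aeval_rename, aeval_rename]

theorem pderiv_inl [DecidableEq ι] [DecidableEq κ] {A : Type} [CommRing A] (y : ι ⊕ κ → A) (i : ι) :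
    aeval y (pderiv (Sum.inl i) (diff F Q)) = aeval (y ∘ Sum.inl) (pderiv i F) := by
  unfold diff
  have h1 : pderiv (Sum.inl i) (rename (Sum.inl : ι → ι ⊕ κ) F) =
      rename Sum.inl (pderiv i F) := pderiv_rename Sum.inl_injective i F
  have h2 : pderiv (Sum.inl i : ι ⊕ κ) (rename (Sum.inr : κ → ι ⊕ κ) Q) = 0 := by
    apply pderiv_eq_zero_of_notMem_vars
    intro h
    have := vars_rename Sum.inr Q h
    simp at this
  rw [map_sub, h1, h2, sub_zero, aeval_rename]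

theorem pderiv_inr [DecidableEq ι] [DecidableEq κ] {A : Type} [CommRing A] (y : ι ⊕ κ → A) (i : κ) :
    aeval y (pderiv (Sum.inr i) (diff F Q)) = - aeval (y ∘ Sum.inr) (pderiv i Q) := by
  unfold diff
  have h1 : pderiv (Sum.inr i) (rename (Sum.inr : κ → ι ⊕ κ) Q) =
      rename Sum.inr (pderiv i Q) := pderiv_rename Sum.inr_injective i Q
  have h2 : pderiv (Sum.inr i : ι ⊕ κ) (rename (Sum.inl : ι → ι ⊕ κ) F) = 0 := by
    apply pderiv_eq_zero_of_notMem_vars
    intro h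
    have := vars_rename Sum.inl F h
    simp at this
  rw [map_sub, h1, h2, zero_sub, map_neg, aeval_rename]

end

theorem aeval_zero' {ι : Type} {m : ℕ} (hm : m ≠ 0) {F : MvPolynomial ι ℤ} (hF : F.IsHomogeneous m)
    {K : Type} [Field K] : aeval (0 : ι → K) F = 0 := by
  rw [aeval_def, eval₂_eq]
  refine Finset.sum_eq_zero fun d hd => ?_
  have h2 : ∑ i ∈ d.support, d i = m := by
    have := hF (mem_support_iff.1 hd)
    simpa [Finsupp.weight_apply, Finsupp.sum] using this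
  have h3 : ∏ i ∈ d.support, ((0 : ι → K) i) ^ d i = 0 := by
    have : ∃ i ∈ d.support, d i ≠ 0 := by
      by_contra hcon
      push Not at hcon
      exact hm (by rw [← h2]; exact Finset.sum_eq_zero hcon)
    obtain ⟨i, hi, hi0⟩ := this
    exact Finset.prod_eq_zero hi (by simp [hi0])
  rw [h3, mul_zero]

theorem euler3 {ι : Type} [Fintype ι] {F : MvPolynomial ι ℤ} (hF : F.IsHomogeneous 3)
    {K : Type} [Field K] [CharZero K] (x : ι → K) (h : ∀ i, aeval x (pderiv i F) = 0) :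
    aeval x F = 0 := by
  have h1 := congrArg (aeval x) hF.sum_X_mul_pderiv
  rw [map_sum] at h1
  simp only [map_mul, aeval_X, nsmul_eq_mul, h, mul_zero, Finset.sum_const_zero, map_natCast] at h1
  have h2 : ((3 : ℕ) : K) ≠ 0 := by exact_mod_cast (by norm_num : (3 : ℕ) ≠ 0)
  exact (mul_eq_zero.1 h1.symm).resolve_left h2

/-- `F(x) = Q(w)` is smooth if and only if `F = 0` is, for a smooth `Q = 0` -/
theorem smooth_diff {ι κ : Type} [Fintype ι] [Fintype κ] {F : MvPolynomial ι ℤ}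
    {Q : MvPolynomial κ ℤ} (hF : F.IsHomogeneous 3) (hQ : Q.IsHomogeneous 3) (hQs : Smooth Q) :
    Smooth (diff F Q) ↔ Smooth F := by
  classical
  constructor
  · intro h K _ _ x hx hF0
    obtain ⟨i, hi⟩ := h K (Sum.elim x 0) (by
      intro h0
      apply hx
      funext i
      exact congrFun h0 (Sum.inl i)) (by
      rw [aeval_diff, Sum.elim_comp_inl, Sum.elim_comp_inr, hF0,
        aeval_zero' (by norm_num) hQ, sub_zero])
    rcases i with i | i
    · refine ⟨i, ?_⟩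
      rwa [pderiv_inl, Sum.elim_comp_inl] at hi
    · exfalso
      apply hi
      rw [pderiv_inr, Sum.elim_comp_inr, aeval_zero' (by norm_num : (3 - 1 : ℕ) ≠ 0) hQ.pderiv,
        neg_zero]
  · intro h K _ _ y hy h0
    by_contra hcon
    push Not at hcon
    have h1 : ∀ i, aeval (y ∘ Sum.inl) (pderiv i F) = 0 := fun i => by
      rw [← pderiv_inl F Q]; exact hcon _
    have h2 : ∀ i, aeval (y ∘ Sum.inr) (pderiv i Q) = 0 := fun i => by
      have := hcon (Sum.inr i)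
      rwa [pderiv_inr, neg_eq_zero] at this
    have h3 : y ∘ Sum.inl = 0 := by
      by_contra h3
      obtain ⟨i, hi⟩ := h K _ h3 (euler3 hF _ h1)
      exact hi (h1 i)
    have h4 : y ∘ Sum.inr = 0 := by
      by_contra h4
      obtain ⟨i, hi⟩ := hQs K _ h4 (euler3 hQ _ h2)
      exact hi (h2 i)
    apply hy
    funext i
    rcases i with i | i
    · exact congrFun h3 i
    · exact congrFun h4 i

theorem hasZC_of_pt {σ : Type} {G : MvPolynomial σ ℤ} {K : Type} [Field K]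
    (h : ∃ y : σ → K, y ≠ 0 ∧ aeval y G = 0) : HasZC G K := by
  refine ⟨1, fun _ => K, fun _ => inferInstance, fun _ => inferInstance, fun _ => 1,
    fun _ => inferInstance, fun _ => h, ?_⟩
  simp

/-- Coray's theorem: a local zero-cycle of degree one on a cubic hypersurface gives a point -/
theorem pt_of_hasZC {σ : Type} [Fintype σ] {G : MvPolynomial σ ℤ} (hG : G.IsHomogeneous 3)
    (p : ℕ) [Fact p.Prime] (h : HasZC G ℚ_[p]) : ∃ y : σ → ℚ_[p], y ≠ 0 ∧ aeval y G = 0 := by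
  obtain ⟨t, L, hF, hA, m, hfd, hx, hsum⟩ := h
  have h1 : ∃ i, ¬ 3 ∣ Module.finrank ℚ_[p] (L i) := by
    by_contra hcon
    push Not at hcon
    have h2 : (3 : ℤ) ∣ ∑ i, m i * (Module.finrank ℚ_[p] (L i) : ℤ) := by
      apply Finset.dvd_sum
      intro i _
      exact Dvd.dvd.mul_left (by exact_mod_cast hcon i) _
    rw [hsum] at h2
    omega
  obtain ⟨i, hi⟩ := h1
  obtain ⟨x, hx0, hx⟩ := hx i
  have := hfd i
  exact Pool.Agent.Y214.CY.coray σ p (L i) hi G hG x hx0 hx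

/-- local zero-cycles of degree one and local points on `F(x) = Q(w)` -/
theorem els_iff {ι : Type} [Fintype ι] [Nonempty ι] (hι : 2 ≤ Fintype.card ι) {r : ℕ}
    {F : MvPolynomial ι ℤ} {Q : MvPolynomial (Fin r) ℤ} (hF : F.IsHomogeneous 3)
    (hQ : Q.IsHomogeneous 3) (hQs : Smooth Q) :
    (HasZC (diff F Q) ℝ ∧ ∀ (p : ℕ) [Fact p.Prime], HasZC (diff F Q) ℚ_[p]) ↔
      Pool.Agent.R465.QV.ElsQ Q (fun _ : Fin 1 => F) := by
  classical
  have key : ∀ (K : Type) [NontriviallyNormedField K] [CompleteSpace K] [CharZero K],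
      (∃ y : ι ⊕ Fin r → K, y ≠ 0 ∧ aeval y (diff F Q) = 0) →
      Pool.Agent.R465.QV.PtQ Q F K := by
    rintro K _ _ _ ⟨y, hy, h0⟩
    rw [aeval_diff, sub_eq_zero] at h0
    refine pt_of_nonzero Q F hF (fun w hw h => hQs K w hw h) (y ∘ Sum.inl) (y ∘ Sum.inr) ?_ h0.symm
    by_contra hcon
    push Not at hcon
    apply hy
    funext i
    rcases i with i | i
    · exact congrFun hcon.1 i
    · exact congrFun hcon.2 i
  have back : ∀ (K : Type) [Field K], Pool.Agent.R465.QV.PtQ Q F K →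
      ∃ y : ι ⊕ Fin r → K, y ≠ 0 ∧ aeval y (diff F Q) = 0 := by
    rintro K _ ⟨x, w, hx, h⟩
    refine ⟨Sum.elim x w, ?_, ?_⟩
    · intro h0
      apply hx
      funext i
      exact congrFun h0 (Sum.inl i)
    · rw [aeval_diff, Sum.elim_comp_inl, Sum.elim_comp_inr, h, sub_self]
  constructor
  · rintro ⟨-, h2⟩
    refine ⟨?_, fun p hp => ?_⟩
    · apply key ℝ
      exact Pool.Agent.Y214.CY.real_cubic (ι ⊕ Fin r) (by
        rw [Fintype.card_sum]; omega) (diff F Q) (diff_homog F Q hF hQ)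
    · exact key ℚ_[p] (pt_of_hasZC (diff_homog F Q hF hQ) p (h2 p))
  · rintro ⟨h1, h2⟩
    exact ⟨hasZC_of_pt (back ℝ h1), fun p _ => hasZC_of_pt (back ℚ_[p] (h2 p))⟩

theorem ratPt_of_PtQ {ι : Type} {r : ℕ} {F : MvPolynomial ι ℤ} {Q : MvPolynomial (Fin r) ℤ}
    (h : Pool.Agent.R465.QV.PtQ Q F ℚ) : ∃ y : ι ⊕ Fin r → ℚ, y ≠ 0 ∧ aeval y (diff F Q) = 0 := by
  obtain ⟨x, w, hx, h⟩ := h
  refine ⟨Sum.elim x w, ?_, ?_⟩
  · intro h0
    apply hx
    funext i
    exact congrFun h0 (Sum.inl i)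
  · rw [aeval_diff, Sum.elim_comp_inl, Sum.elim_comp_inr, h, sub_self]

theorem pt_cast {σ : Type} {G : MvPolynomial σ ℤ} (K : Type) [Field K] [CharZero K]
    (h : ∃ y : σ → ℚ, y ≠ 0 ∧ aeval y G = 0) : ∃ y : σ → K, y ≠ 0 ∧ aeval y G = 0 := by
  obtain ⟨y, hy, h0⟩ := h
  refine ⟨fun i => (y i : K), ?_, ?_⟩
  · intro h1
    apply hy
    funext i
    have := congrFun h1 i
    simp only [Pi.zero_apply] at this
    exact_mod_cast this
  · rw [Pool.Agent.R465.QV.aeval_ratCast, h0, Rat.cast_zero]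

end Pool.Agent.K7.H13.ZC
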