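import Mathlib

/-!
# Small values of a form near a simple zero
-/

set_option autoImplicit false

namespace Pool.Agent.K7.H13.ZC

open Filter Topology MvPolynomial

/-- the derivative along a coordinate line -/
theorem deriv_line {σ K : Type} [Field K] [DecidableEq σ] (Q : MvPolynomial σ ℤ) (w : σ → K)
    (i : σ) :
    Polynomial.derivative (aeval (fun j => Polynomial.C (w j) +
      (if j = i then Polynomial.X else 0 : Polynomial K)) Q) =
      aeval (fun j => Polynomial.C (w j) +
      (if j = i then Polynomial.X else 0 : Polynomial K)) (pderiv i Q) := by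
  induction Q using MvPolynomial.induction_on with
  | C a => simp
  | add p q hp hq => simp only [map_add, hp, hq]
  | mul_X p n hp =>
    rw [map_mul, Polynomial.derivative_mul, hp, pderiv_mul, pderiv_X]
    by_cases hn : n = i
    · subst hn
      simp
    · simp [hn]

theorem eval_line {σ K : Type} [Field K] [DecidableEq σ] (Q : MvPolynomial σ ℤ) (w : σ → K)
    (i : σ) (s : K) :
    Polynomial.eval s (aeval (fun j => Polynomial.C (w j) +
      (if j = i then Polynomial.X else 0 : Polynomial K)) Q) =
      aeval (fun j => w j + (if j = i then s else 0)) Q := by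
  rw [MvPolynomial.aeval_def, MvPolynomial.aeval_def, ← Polynomial.coe_evalRingHom,
    MvPolynomial.hom_eval₂]
  congr 1
  · exact RingHom.ext_int _ _
  · funext j
    simp only [Polynomial.coe_evalRingHom, Polynomial.eval_add, Polynomial.eval_C]
    split_ifs <;> simp

/-- all small numbers are values of a form which has a simple zero -/
theorem small_values {σ K : Type} [NontriviallyNormedField K] [CompleteSpace K]
    (Q : MvPolynomial σ ℤ) (w : σ → K) (h0 : aeval w Q = 0) (i : σ)
    (hi : aeval w (pderiv i Q) ≠ 0) : ∀ᶠ ε in 𝓝 (0 : K), ∃ v : σ → K, aeval v Q = ε := by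
  classical
  obtain ⟨P, hP⟩ : ∃ P : Polynomial K, P = aeval (fun j => Polynomial.C (w j) +
      (if j = i then Polynomial.X else 0 : Polynomial K)) Q := ⟨_, rfl⟩
  have h1 : HasStrictDerivAt (fun s => P.eval s) (P.derivative.eval 0) 0 :=
    P.hasStrictDerivAt 0
  have h2 : P.derivative.eval 0 ≠ 0 := by
    rw [hP, deriv_line, eval_line]
    simpa using hi
  have h3 := h1.map_nhds_eq h2
  have h4 : P.eval 0 = 0 := by
    rw [hP, eval_line]
    simpa using h0
  rw [h4] at h3
  rw [← h3, Filter.eventually_map]
  filter_upwards with s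
  exact ⟨fun j => w j + (if j = i then s else 0), by rw [hP, eval_line]⟩

/-- a point of `Q(w) = F(x)` with `x ≠ 0` exists if there is one with `(x, w) ≠ 0` -/
theorem pt_of_nonzero {ι σ K : Type} [Nonempty ι] [NontriviallyNormedField K] [CompleteSpace K]
    (Q : MvPolynomial σ ℤ) (F : MvPolynomial ι ℤ) (hF : F.IsHomogeneous 3)
    (hQ : ∀ w : σ → K, w ≠ 0 → aeval w Q = 0 → ∃ i, aeval w (pderiv i Q) ≠ 0)
    (x : ι → K) (w : σ → K) (hxw : x ≠ 0 ∨ w ≠ 0) (h : aeval w Q = aeval x F) :
    ∃ (x : ι → K) (w : σ → K), x ≠ 0 ∧ aeval w Q = aeval x F := by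
  classical
  by_cases hx : x = 0
  · have hw : w ≠ 0 := hxw.resolve_left fun h1 => h1 hx
    have hsm : ∀ (t : K) (y : ι → K), aeval (fun i => t * y i) F = t ^ 3 * aeval y F := by
      intro t y
      rw [aeval_def, aeval_def, eval₂_eq, eval₂_eq, Finset.mul_sum]
      refine Finset.sum_congr rfl fun d hd => ?_
      have h2 : ∑ i ∈ d.support, d i = 3 := by
        have := hF (mem_support_iff.1 hd)
        simpa [Finsupp.weight_apply, Finsupp.sum] using this
      simp only [mul_pow]
      rw [Finset.prod_mul_distrib, Finset.prod_pow_eq_pow_sum, h2]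
      ring
    have h0 : aeval w Q = 0 := by
      rw [h, hx]
      have := hsm 0 (fun _ => 0)
      simpa using this
    obtain ⟨i, hi⟩ := hQ w hw h0
    have h1 := small_values Q w h0 i hi
    let i0 : ι := Classical.arbitrary ι
    let y : ι → K := Pi.single i0 1
    have h2 : Tendsto (fun t : K => t ^ 3 * aeval y F) (𝓝[≠] 0) (𝓝 0) := by
      have : Tendsto (fun t : K => t ^ 3 * aeval y F) (𝓝 0) (𝓝 (0 ^ 3 * aeval y F)) := by
        apply Continuous.tendsto
        fun_prop
      rw [zero_pow (by norm_num), zero_mul] at this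
      exact this.mono_left nhdsWithin_le_nhds
    have h3 := (h2.eventually h1).and self_mem_nhdsWithin
    obtain ⟨t, ⟨v, hv⟩, ht⟩ := h3.exists
    refine ⟨fun i => t * y i, v, ?_, ?_⟩
    · intro h4
      have h5 := congrFun h4 i0
      simp only [y, Pi.single_eq_same, mul_one, Pi.zero_apply] at h5
      exact ht h5
    · rw [hv, hsm]
  · exact ⟨x, w, hx, h⟩

end Pool.Agent.K7.H13.ZC
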